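import Pool.Agent.H83.BI.Mean

/-!
# Averaged differentials of nontrivial diffeomorphisms of the 4-sphere

The implantation of a barbell in `S⁴` is supported in a ball; it is a compactly supported
diffeomorphism `f` of `ℝ⁴ = S⁴ ∖ {pt}`. Let `μ` be any probability measure on `ℝ⁴` without atoms and
with compact support (a ball, a sphere, a segment, a Cantor set, ...), and `π : ℝ⁴ → ℝ²` linear and
onto. The differential of `π ∘ f` has rank two everywhere. If `f` is not isotopic to the identity,
then for some `x` and `r > 0` the **average** of this differential over the homothetic copy `x + r μ`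
of `μ` has rank at most one.

Here this is proved in all dimensions, with `n - 2` linear coordinates `π` of `f` for diffeomorphisms
of `ℝⁿ`. In terms of the criterion: if for all `x` and `r > 0` the linear map
`v ↦ ∫ π (D f (x + r u) v) dμ(u)` is onto, then `f` is isotopic to the identity.

Proof. The averages of `π ∘ f` over `x + r μ`, `0 ≤ r < ∞`, form a path of submersions; for large `r`
the map is close to `π`, as the copies of `μ` meet the support of `f` in sets of small measure. The
flow of a vector field (Moser) deforms `f` to a diffeomorphism which preserves the fibres of `π`. These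
are planes, so that a version with parameters of the theorem of Smale on the diffeomorphisms of the
plane applies.
-/

set_option autoImplicit false

open Function MeasureTheory
open scoped ContDiff

namespace Pool.Agent.Results.MP_8e98f2_gt.MeanDerivative

variable {E F : Type} [NormedAddCommGroup E] [NormedSpace ℝ E]
  [NormedAddCommGroup F] [NormedSpace ℝ F]

/-- diffeomorphism of `E` -/
def IsDiffeo (f : E → E) : Prop :=
  ContDiff ℝ ∞ f ∧ ∃ g : E → E, ContDiff ℝ ∞ g ∧ LeftInverse g f ∧ RightInverse g f

/-- `f` is the identity off a compact set -/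
def CompactlySupported (f : E → E) : Prop :=
  ∃ K : Set E, IsCompact K ∧ ∀ x, x ∉ K → f x = x

/-- `f` is smoothly isotopic to the identity, through diffeomorphisms which are the identity off one
compact set -/
def IsotopicToId (f : E → E) : Prop :=
  ∃ (Φ : ℝ → E → E) (K : Set E), IsCompact K ∧
    ContDiff ℝ ∞ (fun p : ℝ × E => Φ p.1 p.2) ∧ (∀ t, IsDiffeo (Φ t)) ∧
    (∀ t x, x ∉ K → Φ t x = x) ∧ (∀ x, Φ 0 x = x) ∧ ∀ x, Φ 1 x = f x

/-- the average over `x + r μ` of the differential of `π ∘ f`, applied to `v` -/
noncomputable def meanDifferential [MeasurableSpace E] (μ : Measure E) (π : E →L[ℝ] F) (f : E → E)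
    (x : E) (r : ℝ) (v : E) : F :=
  ∫ u, π (fderiv ℝ f (x + r • u) v) ∂μ

/-- **Averages of the differential.** If all the averages over the copies `x + r μ` of the differential
of `n - 2` linear coordinates of a compactly supported diffeomorphism `f` of `ℝⁿ` are onto, then `f` is
isotopic to the identity. -/
theorem result [FiniteDimensional ℝ E] [FiniteDimensional ℝ F] [MeasurableSpace E] [BorelSpace E]
    (π : E →L[ℝ] F) (hπ : Module.finrank ℝ (LinearMap.ker (π : E →ₗ[ℝ] F)) ≤ 2)
    (μ : Measure E) [IsProbabilityMeasure μ] (hμ : ∃ K : Set E, IsCompact K ∧ μ Kᶜ = 0)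
    (hat : ∀ x, μ {x} = 0)
    (f : E → E) (hf : IsDiffeo f) (hc : CompactlySupported f)
    (hmean : ∀ (x : E) (r : ℝ), 0 < r → Surjective (meanDifferential μ π f x r)) :
    IsotopicToId f := by
  obtain ⟨K, hK, hμ⟩ := hμ
  have hfar : ∃ R : ℝ, ∀ x, R ≤ ‖x‖ → f x = x := by
    obtain ⟨K, hK, h⟩ := hc
    obtain ⟨M, hM⟩ := hK.isBounded.exists_norm_le
    refine ⟨M + 1, fun x hx => h x fun hxK => ?_⟩
    have := hM x hxK
    linarith
  have hT : Pool.Agent.H83.BI.Triv f :=
    Pool.Agent.H83.BI.mean_criterion π hπ hf hfar μ hK hμ hat hmean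
  obtain ⟨Φ, r, h1, h2, h3, h4, h5⟩ := hT.isotopy
  refine ⟨Φ, Metric.closedBall 0 r, isCompact_closedBall 0 r, h1, h2, fun t x hx => h3 t x ?_, h4,
    h5⟩
  rw [mem_closedBall_zero_iff] at hx
  exact (not_le.1 hx).le

end Pool.Agent.Results.MP_8e98f2_gt.MeanDerivative
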