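import Pool.Agent.H83.BI.DistortMain

/-!
# Nontrivial diffeomorphisms of the 4-sphere have distortion larger than `√2`

The implantation of a barbell in `S⁴` is supported in a ball; it is a compactly supported
diffeomorphism `f` of `ℝ⁴ = S⁴ ∖ {pt}`. If `f` is not isotopic to the identity, then
`Lip f · Lip f⁻¹ > √2` (Euclidean Lipschitz constants, in any Euclidean chart): somewhere `f` stretches
`√2` times as much as somewhere else. (The lemma `general` treats `ℝⁿ`, `n ≥ 2`: the condition on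
`K = Lip f · Lip f⁻¹` is `4 (K² - 1) ω_{n-1}² < (K² + 1) ω_n²`, where `ω_k` is the volume of the unit
ball of `ℝᵏ`.)

Proof. Let `f_r(x)` be the mean of `f` over the ball `B(x, r)`. For large `r` it is `C¹`-close to the
identity. If `D f_r(x) v = 0` for a unit vector `v`, the differences `F` of the values of `f` at the
two ends of the chords of `B(x, r)` parallel to `v` have mean zero. Then the mean of `⟨F, F'⟩` over
pairs of chords vanishes; but by the four point identity it is bounded below in terms of the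
Lipschitz constants.
-/

set_option autoImplicit false

open Function
open scoped ContDiff NNReal

namespace Pool.Agent.Results.MP_8e98f2_gt.SmallDistortion

/-- `ℝⁿ` -/
abbrev R (n : ℕ) : Type := EuclideanSpace ℝ (Fin n)

/-- diffeomorphism of `ℝⁿ` -/
def IsDiffeo {n : ℕ} (f : R n → R n) : Prop :=
  ContDiff ℝ ∞ f ∧ ∃ g : R n → R n, ContDiff ℝ ∞ g ∧ LeftInverse g f ∧ RightInverse g f

/-- `f` is the identity off a compact set -/
def CompactlySupported {n : ℕ} (f : R n → R n) : Prop :=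
  ∃ K : Set (R n), IsCompact K ∧ ∀ x, x ∉ K → f x = x

/-- `f` is smoothly isotopic to the identity, through diffeomorphisms which are the identity off one
compact set -/
def IsotopicToId {n : ℕ} (f : R n → R n) : Prop :=
  ∃ (Φ : ℝ → R n → R n) (K : Set (R n)), IsCompact K ∧
    ContDiff ℝ ∞ (fun p : ℝ × R n => Φ p.1 p.2) ∧ (∀ t, IsDiffeo (Φ t)) ∧
    (∀ t x, x ∉ K → Φ t x = x) ∧ (∀ x, Φ 0 x = x) ∧ ∀ x, Φ 1 x = f x

/-- volume of the unit ball of `ℝⁿ` -/
noncomputable def vball (n : ℕ) : ℝ :=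
  (MeasureTheory.volume (Metric.closedBall (0 : R n) 1)).toReal

theorem far_of_compact {n : ℕ} {f : R n → R n} (h : CompactlySupported f) :
    ∃ r : ℝ, ∀ x, r ≤ ‖x‖ → f x = x := by
  obtain ⟨K, hK, h⟩ := h
  obtain ⟨M, hM⟩ := hK.isBounded.exists_norm_le
  refine ⟨M + 1, fun x hx => h x fun hxK => ?_⟩
  have := hM x hxK
  linarith

theorem isotopic_of_triv {n : ℕ} {f : R n → R n} (h : Pool.Agent.H83.BI.Triv f) :
    IsotopicToId f := by
  obtain ⟨Φ, r, h1, h2, h3, h4, h5⟩ := h.isotopy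
  refine ⟨Φ, Metric.closedBall 0 r, isCompact_closedBall 0 r, h1, h2, fun t x hx => h3 t x ?_, h4,
    h5⟩
  rw [mem_closedBall_zero_iff] at hx
  exact (not_le.1 hx).le

theorem general (n : ℕ) (hn : 1 ≤ n) (f : R (n + 1) → R (n + 1)) (K₁ K₂ : ℝ≥0) (hf : IsDiffeo f)
    (hc : CompactlySupported f) (h1 : LipschitzWith K₁ f) (h2 : AntilipschitzWith K₂ f)
    (hK : 4 * (((K₁ : ℝ) * K₂) ^ 2 - 1) * vball n ^ 2 < (((K₁ : ℝ) * K₂) ^ 2 + 1) * vball (n + 1) ^ 2) :
    IsotopicToId f :=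
  isotopic_of_triv (Pool.Agent.H83.BI.distort_triv hn (by simp) hf (far_of_compact hc) h1 h2 hK)

theorem omega_three : vball 3 = Real.pi * 4 / 3 := by
  have := Real.pi_pos
  rw [vball, EuclideanSpace.volume_closedBall_fin_three]
  rw [ENNReal.ofReal_one, one_pow, one_mul, ENNReal.toReal_ofReal (by positivity)]

theorem omega_four : vball 4 = Real.pi ^ 2 / 2 := by
  have := Real.pi_pos
  rw [vball, InnerProductSpace.volume_closedBall_of_dim_even (k := 2) (by simp)]
  rw [ENNReal.ofReal_one, one_pow, one_mul, ENNReal.toReal_ofReal (by positivity)]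
  norm_num [Nat.factorial]

/-- **Compactly supported diffeomorphisms of `ℝ⁴` with `Lip f · Lip f⁻¹ ≤ √2` are isotopic to the
identity.** -/
theorem result (f : R 4 → R 4) (K₁ K₂ : ℝ≥0) (hf : IsDiffeo f) (hc : CompactlySupported f)
    (h1 : LipschitzWith K₁ f) (h2 : AntilipschitzWith K₂ f)
    (hK : (K₁ : ℝ) * K₂ ≤ Real.sqrt 2) : IsotopicToId f := by
  refine general 3 (by norm_num) f K₁ K₂ hf hc h1 h2 ?_
  have e1 : vball (3 + 1) = Real.pi ^ 2 / 2 := omega_four
  rw [omega_three, e1]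
  have hp := Real.pi_gt_d2
  have hp2 : 9.8 < Real.pi ^ 2 := by nlinarith
  have h0 : 0 ≤ (K₁ : ℝ) * K₂ := by positivity
  have hK2 : ((K₁ : ℝ) * K₂) ^ 2 ≤ 2 := by
    have := pow_le_pow_left₀ h0 hK 2
    rwa [Real.sq_sqrt (by norm_num)] at this
  obtain ⟨q, hq⟩ : ∃ q : ℝ, q = ((K₁ : ℝ) * K₂) ^ 2 := ⟨_, rfl⟩
  rw [← hq] at hK2 ⊢
  have hq0 : 0 ≤ q := by rw [hq]; positivity
  have h3 : 256 * (q - 1) < 9 * Real.pi ^ 2 * (q + 1) := by nlinarith
  have h4 : 4 * (q - 1) * (Real.pi * 4 / 3) ^ 2 = (256 * (q - 1)) * (Real.pi ^ 2 / 36) := by ring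
  have h5 : (q + 1) * (Real.pi ^ 2 / 2) ^ 2 = (9 * Real.pi ^ 2 * (q + 1)) * (Real.pi ^ 2 / 36) := by
    ring
  rw [h4, h5]
  exact mul_lt_mul_of_pos_right h3 (by positivity)

end Pool.Agent.Results.MP_8e98f2_gt.SmallDistortion
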