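import Pool.Agent.H83.BI.Torsion

/-!
# A gap for the torsion of formal isotopies of the 4-ball

The implantation of a barbell in `S⁴` is supported in a ball; it is a compactly supported
diffeomorphism `f` of `ℝ⁴ = S⁴ ∖ {pt}`. Let `π : ℝ⁴ → ℝ²` be linear and onto. An isotopy from the
identity to `f` gives a path `ω_t` of **closed** onto `ℝ²`-valued one-forms from `π` to `D (π ∘ f)`,
equal to `π` off a ball. The weaker formal object is any path `ω_t` of onto `ℝ²`-valued one-forms,
closed or not. Its torsion in a direction `e` is the one-form `dω_t (·, e)`.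

**Theorem.** Let `f` and `ω_t` be the identity and `π` off the ball of radius `R`, let `K` be a bound
for the norms of right inverses of `ω_t (x)` and `τ` for the torsion of the `ω_t` in **one** direction
`e`, `‖e‖ = 1`. If `2 R K τ < 1` then `f` is isotopic to the identity. So nontrivial implantations have
a gap: each formal path has torsion at least `1 / (2 R K)` in all directions. There is no condition on
`dω_t (v, w)` for other `v`, `w`.

The theorem is proved in all dimensions, for `n - 2` coordinates of diffeomorphisms of `ℝⁿ` with any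
norm.

Proof. Integrate `ω_t (e) - π (e)` along the lines in the direction `e`: this gives functions `J_t`
whose differentials differ from `ω_t - π` by the integral of the torsion, up to `2 R τ`. So `π + J_t`
are submersions, but `J_t` is not zero on the half-cylinder in front of the ball; there it depends on
the coordinates transversal to `e` only, and can be cut off slowly. Then the submersions `Q_t` are
`π` off a ball and `Q_1 = π ∘ f`; the flow of a vector field (Moser) and a version with parameters of
the theorem of Smale on the diffeomorphisms of the plane finish the proof.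
-/

set_option autoImplicit false

open Set Function
open scoped ContDiff

namespace Pool.Agent.Results.MP_8e98f2_gt.TorsionGap

variable {E F : Type} [NormedAddCommGroup E] [NormedSpace ℝ E]
  [NormedAddCommGroup F] [NormedSpace ℝ F]

/-- diffeomorphism of `E` -/
def IsDiffeo (f : E → E) : Prop :=
  ContDiff ℝ ∞ f ∧ ∃ g : E → E, ContDiff ℝ ∞ g ∧ LeftInverse g f ∧ RightInverse g f

/-- `f` is smoothly isotopic to the identity, through diffeomorphisms which are the identity off one
compact set -/
def IsotopicToId (f : E → E) : Prop :=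
  ∃ (Φ : ℝ → E → E) (K : Set E), IsCompact K ∧
    ContDiff ℝ ∞ (fun p : ℝ × E => Φ p.1 p.2) ∧ (∀ t, IsDiffeo (Φ t)) ∧
    (∀ t x, x ∉ K → Φ t x = x) ∧ (∀ x, Φ 0 x = x) ∧ ∀ x, Φ 1 x = f x

/-- `dα (v, w)` for the `F`-valued one-form `α` on `E`, at the point `x` -/
noncomputable def extDeriv (α : E → (E →L[ℝ] F)) (x v w : E) : F :=
  (fderiv ℝ α x v) w - (fderiv ℝ α x w) v

/-- `α t`, `0 ≤ t ≤ 1`, is a smooth path of `F`-valued one-forms from the constant form `π` to
`D (π ∘ f)`, and equal to `π` off the ball of radius `R` -/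
structure FormalPath (π : E →L[ℝ] F) (f : E → E) (R : ℝ) (α : ℝ → E → (E →L[ℝ] F)) : Prop where
  smooth : ContDiff ℝ ∞ (fun p : ℝ × E => α p.1 p.2)
  standard : ∀ t ∈ Icc (0 : ℝ) 1, ∀ x, R ≤ ‖x‖ → α t x = π
  zero : ∀ x, α 0 x = π
  one : ∀ x, α 1 x = π.comp (fderiv ℝ f x)

/-- **Torsion gap.** Let `f` be a diffeomorphism which is the identity off the ball of radius `R`, and
`α t` a path of one-forms from `π` to `D (π ∘ f)` with right inverses of norm at most `K`, where `π` has
a kernel of dimension at most two. If the torsion of the `α t` in one direction `e` is at most `τ`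
and `2 R K τ < 1`, then `f` is isotopic to the identity. -/
theorem result [FiniteDimensional ℝ E] [FiniteDimensional ℝ F]
    (π : E →L[ℝ] F) (hπ : Module.finrank ℝ (LinearMap.ker (π : E →ₗ[ℝ] F)) ≤ 2)
    (f : E → E) (hf : IsDiffeo f) (R : ℝ) (hR : 0 < R) (hfR : ∀ x, R ≤ ‖x‖ → f x = x)
    (α : ℝ → E → (E →L[ℝ] F)) (hα : FormalPath π f R α) (K : ℝ)
    (hK : ∀ t ∈ Icc (0 : ℝ) 1, ∀ x, ∃ C : F →L[ℝ] E, ‖C‖ ≤ K ∧ ∀ y, α t x (C y) = y)
    (e : E) (he : ‖e‖ = 1) (τ : ℝ)
    (hτ : ∀ t ∈ Icc (0 : ℝ) 1, ∀ x v, ‖extDeriv (α t) x v e‖ ≤ τ * ‖v‖)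
    (hKτ : 2 * R * K * τ < 1) : IsotopicToId f := by
  have hnt : Nontrivial E := ⟨e, 0, by rintro rfl; simp at he⟩
  have hτ0 : 0 ≤ τ := by
    have h1 := hτ 0 ⟨le_rfl, zero_le_one⟩ 0 e
    rw [he, mul_one] at h1
    exact (norm_nonneg _).trans h1
  have hT : Pool.Agent.H83.BI.Triv f := by
    refine Pool.Agent.H83.BI.torsion π hπ hf hR hfR (om := fun p => α p.1 p.2) hα.smooth
      hα.standard hα.zero hα.one he hτ0 hKτ ?_ hτ
    intro t ht x
    obtain ⟨C, hC, h⟩ := hK t ht x
    exact ⟨C, hC, ContinuousLinearMap.ext h⟩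
  obtain ⟨Φ, r, h1, h2, h3, h4, h5⟩ := hT.isotopy
  refine ⟨Φ, Metric.closedBall 0 r, isCompact_closedBall 0 r, h1, h2, fun t x hx => h3 t x ?_, h4,
    h5⟩
  rw [mem_closedBall_zero_iff] at hx
  exact (not_le.1 hx).le

end Pool.Agent.Results.MP_8e98f2_gt.TorsionGap
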