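import Pool.Agent.H83.BI.Chain

/-!
# Planes, and chains of transverse submersions, for diffeomorphisms of the 4-sphere

The implantation of a barbell in `S⁴` is supported in a ball; it is a compactly supported
diffeomorphism `f` of `ℝ⁴ = S⁴ ∖ {pt}`.

**Planes.** If `f` is not isotopic to the identity then, for all pairs `V`, `W` of linear planes in
`ℝ⁴`, some differential `D f (x)` maps a vector `v ≠ 0` of `V` into `W`. (For `V ∩ W ≠ 0` this is clear,
the point is the case `ℝ⁴ = V ⊕ W`; for instance `W = V^⊥`: in each plane there is a vector which is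
turned to the orthogonal plane.)

**Chains.** Let `ρ : ℝ⁴ → ℝ²` be linear and onto. The diffeomorphism `f` is isotopic to the identity if
and only if `ρ` and `ρ ∘ f` are joined by a finite chain `ρ = A₀, A₁, ..., A_m = ρ ∘ f` of smooth maps
`ℝ⁴ → ℝ²`, linear off compact sets, such that any two consecutive maps `A_i`, `A_{i+1}` are transverse:
`(D A_i (x), D A_{i+1} (x)) : ℝ⁴ → ℝ² × ℝ²` is bijective for all `x`. So Q1 of the problem is the
question whether the graph of these maps, with the transverse pairs as edges, is such that `ρ` and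
`ρ ∘ f` are in the same component, for the implantations `f` of all barbells.

Proof. If `A` and `B` are transverse, linear off a compact set, the map `(A, B)` is, up to a linear
map, a compactly supported diffeomorphism `φ`. The diffeomorphisms of consecutive pairs of the chain
differ by a diffeomorphism which preserves the fibres of a linear map `ℝ⁴ → ℝ²`. These are planes, so
it is isotopic to the identity by a version with parameters of the theorem of Smale on the
diffeomorphisms of the plane. For the other direction the path `ρ ∘ f_t` is divided into short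
pieces, and `σ ∘ f_t` is inserted, where `σ` is transverse to `ρ`. The planes are the case of chains
`ρ, A, ρ ∘ f` with linear `A`.
-/

set_option autoImplicit false

open Function
open scoped ContDiff

namespace Pool.Agent.Results.MP_8e98f2_gt.TransversePlanes

variable {E F : Type} [NormedAddCommGroup E] [NormedSpace ℝ E]
  [NormedAddCommGroup F] [NormedSpace ℝ F]

/-- diffeomorphism of `E` -/
def IsDiffeo (f : E → E) : Prop :=
  ContDiff ℝ ∞ f ∧ ∃ g : E → E, ContDiff ℝ ∞ g ∧ LeftInverse g f ∧ RightInverse g f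

/-- `f` is the identity off a compact set -/
def CompactlySupported (f : E → E) : Prop :=
  ∃ K : Set E, IsCompact K ∧ ∀ x, x ∉ K → f x = x

/-- `f` is smoothly isotopic to the identity, through diffeomorphisms which are the identity off one
compact set -/
def IsotopicToId (f : E → E) : Prop :=
  ∃ (Φ : ℝ → E → E) (K : Set E), IsCompact K ∧
    ContDiff ℝ ∞ (fun p : ℝ × E => Φ p.1 p.2) ∧ (∀ t, IsDiffeo (Φ t)) ∧
    (∀ t x, x ∉ K → Φ t x = x) ∧ (∀ x, Φ 0 x = x) ∧ ∀ x, Φ 1 x = f x

/-- `V` is a linear plane in `E` -/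
def IsPlane (V : Submodule ℝ E) : Prop := Module.finrank ℝ V = 2

/-- `A` is equal to a linear map off a compact set -/
def LinearAtInfinity (A : E → F) : Prop :=
  ∃ (α : E →L[ℝ] F) (K : Set E), IsCompact K ∧ ∀ x, x ∉ K → A x = α x

/-- `A` and `B` are smooth, linear at infinity and transverse: the kernels of the differentials are
complementary in each point -/
def Transverse (A B : E → F) : Prop :=
  ContDiff ℝ ∞ A ∧ ContDiff ℝ ∞ B ∧ LinearAtInfinity A ∧ LinearAtInfinity B ∧
    ∀ x, Bijective (fun v : E => (fderiv ℝ A x v, fderiv ℝ B x v))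

theorem bound_of_compact {K : Set E} (hK : IsCompact K) : ∃ R : ℝ, ∀ x, R ≤ ‖x‖ → x ∉ K := by
  obtain ⟨M, hM⟩ := hK.isBounded.exists_norm_le
  refine ⟨M + 1, fun x hx hxK => ?_⟩
  have := hM x hxK
  linarith

theorem far_of_compact {f : E → E} (h : CompactlySupported f) :
    ∃ r : ℝ, ∀ x, r ≤ ‖x‖ → f x = x := by
  obtain ⟨K, hK, h⟩ := h
  obtain ⟨R, hR⟩ := bound_of_compact hK
  exact ⟨R, fun x hx => h x (hR x hx)⟩

variable [FiniteDimensional ℝ E] [FiniteDimensional ℝ F]

theorem std_iff (A : E → F) : LinearAtInfinity A ↔ Pool.Agent.H83.BI.Std A := by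
  constructor
  · rintro ⟨α, K, hK, h⟩
    obtain ⟨R, hR⟩ := bound_of_compact hK
    exact ⟨α, R, fun x hx => h x (hR x hx)⟩
  · rintro ⟨α, R, h⟩
    refine ⟨α, Metric.closedBall 0 R, isCompact_closedBall 0 R, fun x hx => h x ?_⟩
    rw [mem_closedBall_zero_iff] at hx
    exact (not_le.1 hx).le

theorem transverse_iff (A B : E → F) : Transverse A B ↔ Pool.Agent.H83.BI.Step A B := by
  rw [Transverse, Pool.Agent.H83.BI.Step, std_iff, std_iff]

theorem isotopic_iff {f : E → E} : IsotopicToId f ↔ Pool.Agent.H83.BI.Triv f := by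
  constructor
  · rintro ⟨Φ, K, hK, h1, h2, h3, h4, h5⟩
    obtain ⟨R, hR⟩ := bound_of_compact hK
    exact ⟨fun p => Φ p.1 p.2, R, h1, fun t x => Pool.Agent.H83.BI.IsDiffeo.inj (h2 t) x,
      fun t x hx => h3 t x (hR x hx), h4, h5⟩
  · intro h
    obtain ⟨Φ, r, h1, h2, h3, h4, h5⟩ := h.isotopy
    refine ⟨Φ, Metric.closedBall 0 r, isCompact_closedBall 0 r, h1, h2, fun t x hx => h3 t x ?_, h4,
      h5⟩
    rw [mem_closedBall_zero_iff] at hx
    exact (not_le.1 hx).le

theorem exists_complement (hE : Module.finrank ℝ E = 4) (hF : Module.finrank ℝ F = 2)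
    (ρ : E →L[ℝ] F) (hρ : Surjective ρ) :
    Module.finrank ℝ (LinearMap.ker (ρ : E →ₗ[ℝ] F)) = 2 ∧
      ∃ σ : E →L[ℝ] F, Bijective (fun v => (ρ v, σ v)) := by
  have h1 := LinearMap.finrank_range_add_finrank_ker (ρ : E →ₗ[ℝ] F)
  have h2 : LinearMap.range (ρ : E →ₗ[ℝ] F) = ⊤ := LinearMap.range_eq_top.2 hρ
  have h3 : Module.finrank ℝ (LinearMap.ker (ρ : E →ₗ[ℝ] F)) = 2 := by
    rw [h2, finrank_top] at h1
    omega
  refine ⟨h3, ?_⟩
  obtain ⟨K, hK⟩ : ∃ K : Submodule ℝ E, K = LinearMap.ker (ρ : E →ₗ[ℝ] F) := ⟨_, rfl⟩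
  rw [← hK] at h3
  obtain ⟨W, hW⟩ := Submodule.exists_isCompl K
  let u : K ≃ₗ[ℝ] F := LinearEquiv.ofFinrankEq _ _ (by rw [h3, hF])
  let σ : E →ₗ[ℝ] F := (u : K →ₗ[ℝ] F).comp (K.projectionOnto W hW)
  refine ⟨LinearMap.toContinuousLinearMap σ, ?_⟩
  have hi : Injective (((ρ : E →ₗ[ℝ] F).prod σ : E →ₗ[ℝ] F × F)) := by
    rw [injective_iff_map_eq_zero]
    intro v hv
    have e1 : ρ v = 0 := congrArg Prod.fst hv
    have e2 : σ v = 0 := congrArg Prod.snd hv
    have e3 : v ∈ K := by rw [hK]; exact e1
    have e4 : u (K.projectionOnto W hW v) = 0 := e2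
    rw [LinearEquiv.map_eq_zero_iff] at e4
    have e5 := Submodule.projectionOnto_apply_left hW ⟨v, e3⟩
    rw [show ((⟨v, e3⟩ : K) : E) = v from rfl, e4] at e5
    exact (congrArg Subtype.val e5).symm
  refine ⟨hi, (LinearMap.injective_iff_surjective_of_finrank_eq_finrank ?_).1 hi⟩
  rw [Module.finrank_prod]
  omega

/-- **Planes and chains.** Let `f` be a compactly supported diffeomorphism of `E = ℝ⁴`. If `f` is not
isotopic to the identity, then for all planes `V` and `W` some differential of `f` maps a nonzero vector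
of `V` into `W`. And `f` is isotopic to the identity if and only if `ρ` and `ρ ∘ f` are joined by a chain
of transverse maps to `F = ℝ²`, where `ρ` is any linear map onto `F`. -/
theorem result (hE : Module.finrank ℝ E = 4) (hF : Module.finrank ℝ F = 2)
    (f : E → E) (hf : IsDiffeo f) (hc : CompactlySupported f) :
    (¬ IsotopicToId f → ∀ V W : Submodule ℝ E, IsPlane V → IsPlane W →
      ∃ x, ∃ v ∈ V, v ≠ 0 ∧ fderiv ℝ f x v ∈ W) ∧
    (∀ ρ : E →L[ℝ] F, Surjective ρ →
      (IsotopicToId f ↔ Relation.ReflTransGen Transverse (fun x => ρ x) (fun x => ρ (f x)))) := by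
  have hT : (Transverse : (E → F) → (E → F) → Prop) = Pool.Agent.H83.BI.Step := by
    funext A B
    exact propext (transverse_iff A B)
  have hnt : Nontrivial E := Module.nontrivial_of_finrank_pos (R := ℝ) (by omega)
  rw [isotopic_iff, hT]
  constructor
  · intro hn V W hV hW
    by_contra hcon
    push Not at hcon
    refine hn (Pool.Agent.H83.BI.triv_of_planes hE V W hV hW hf (far_of_compact hc)
      fun x v hv hw => ?_)
    by_contra hv0
    exact hcon x v hv hv0 hw
  · intro ρ hρ
    obtain ⟨hk, σ, hσ⟩ := exists_complement hE hF ρ hρ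
    constructor
    · exact Pool.Agent.H83.BI.chain_of_triv ρ σ hσ
    · exact Pool.Agent.H83.BI.triv_of_chain hF.le ρ hk.le hf (far_of_compact hc)

end Pool.Agent.Results.MP_8e98f2_gt.TransversePlanes
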